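import Mathlib

set_option autoImplicit false

namespace Pool.Agent.Results.MP_ddf116_an.Counter

/-- `T` (given by its graph in `X × X*`) is monotone. -/
def IsMonotoneOp {X : Type} [NormedAddCommGroup X] [NormedSpace ℝ X]
    (T : Set (X × (X →L[ℝ] ℝ))) : Prop :=
  ∀ p ∈ T, ∀ q ∈ T, 0 ≤ (p.2 - q.2) (p.1 - q.1)

/-- `V` locates `T`. -/
def Locates {X : Type} [NormedAddCommGroup X] [NormedSpace ℝ X]
    (V : Set X) (T : Set (X × (X →L[ℝ] ℝ))) : Prop :=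
  ∀ p : X × (X →L[ℝ] ℝ), p.1 ∈ V →
    (∀ q ∈ T, q.1 ∈ V → 0 ≤ (p.2 - q.2) (p.1 - q.1)) → ∃ f, (p.1, f) ∈ T

theorem result : ∃ (T : Set ((ℝ × ℝ) × ((ℝ × ℝ) →L[ℝ] ℝ))) (V : Set (ℝ × ℝ)),
    IsMonotoneOp T ∧ IsOpen V ∧ Convex ℝ V ∧ (∃ p ∈ T, p.1 ∈ V) ∧
    Locates (closure V) T ∧ ¬ Locates V T := by
  refine ⟨{p | p.1.2 = 0 ∧ (p.2 = 0 ∨ (p.1.1 = 1 ∧ ∃ t : ℝ, p.2 = t • ContinuousLinearMap.snd ℝ ℝ ℝ))},
    Metric.ball 0 1, ?_, Metric.isOpen_ball, convex_ball _ _, ⟨(0, 0), ⟨rfl, Or.inl rfl⟩, by simp⟩,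
    ?_, ?_⟩
  · rintro ⟨x, f⟩ ⟨hx, hf⟩ ⟨y, g⟩ ⟨hy, hg⟩
    simp only at hx hy hf hg ⊢
    rcases hf with rfl | ⟨-, t, rfl⟩ <;> rcases hg with rfl | ⟨-, s, rfl⟩ <;> simp [hx, hy]
  · rintro ⟨x, f⟩ hx h
    refine ⟨0, ?_, Or.inl rfl⟩
    simp only at h ⊢
    by_contra hne
    have hmem : ((1, 0) : ℝ × ℝ) ∈ closure (Metric.ball (0 : ℝ × ℝ) 1) := by
      rw [closure_ball _ one_ne_zero]
      simp [Prod.norm_def]
    have := h ((1, 0), ((f (x - (1, 0)) + 1) / x.2) • ContinuousLinearMap.snd ℝ ℝ ℝ)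
      ⟨rfl, Or.inr ⟨rfl, _, rfl⟩⟩ hmem
    simp only [ContinuousLinearMap.sub_apply, ContinuousLinearMap.smul_apply,
      ContinuousLinearMap.coe_snd', Prod.snd_sub, sub_zero, smul_eq_mul] at this
    rw [div_mul_cancel₀ _ hne] at this
    linarith
  · intro h
    obtain ⟨f, hf, -⟩ := h ((0, 1 / 2), ContinuousLinearMap.snd ℝ ℝ ℝ) (by
      simp [Prod.norm_def]; norm_num) (by
      rintro ⟨y, g⟩ ⟨hy, hg⟩ hV
      simp only at hy hg hV ⊢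
      rcases hg with rfl | ⟨h1, -⟩
      · simp [hy]
      · exfalso
        rw [mem_ball_zero_iff, Prod.norm_def, max_lt_iff, h1] at hV
        simp at hV)
    norm_num at hf

end Pool.Agent.Results.MP_ddf116_an.Counter
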